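import Pool.Agent.Y994.KW.All2

/-!
# Crossings of long cylinders: critical bond percolation on the square lattice and
# `√6` times Brownian motion

Critical bond percolation (`p = 1/2`) on the square lattice rotated by 45 degrees, in the strip of
height `M`, periodic with an odd period `N = 2n+1`: the universal cover of a cylinder of
circumference `N`.  The corners `(x, y)` of the unit squares (tiles) with `x + y` even are the
vertices of the lattice, the corners with `x + y` odd are the vertices of the dual lattice; in every
tile exactly one of the two diagonals is open, so an edge is open iff the dual edge is not.  The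
translation by one turn `N` exchanges the two lattices (the colours are exchanged across a seam).  At
the bottom the arcs `[kN, kN + 2n]` are wired.

The theorem: the crossings from the wired arc `[0, 2n]` to the height `m` all have the same winding
up to one turn, it is given by the interface; and in the limit `n → ∞`, `M / N → ∞` the winding angle
of the crossings, as a function of the height, converges in law, in the space of continuous
functions, to `√6` times Brownian motion, as conformal invariance (radial or dipolar SLE with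
`κ = 6`) predicts.  In particular the crossing probabilities from the wired arc to a half-line of the
top converge to the tails of the normal law of variance `6`.

Authors of the steps: Pool/Agent/Y994/KW/All.lean and Pool/Agent/Y994/KW/All2.lean.
-/

set_option autoImplicit false

namespace Pool.Agent.Results.MP_35f495_pr.BrownianCrossings

open Filter Topology MeasureTheory ProbabilityTheory

/-- configurations of `M` rows of the cylinder of circumference `2n+1`: the state of the tile `(j,t)`
(the unit square with lower left corner `(j,t)`) is `c t (j mod 2n+1)` -/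
abbrev Conf (n M : ℕ) : Type := Fin M → Fin (2 * n + 1) → Bool

/-- adjacency of the corners in the strip of `M` rows of the universal cover: the open diagonal of the
tile `(j,t)` is `(j,t) - (j+1,t+1)` in the state `false` and `(j+1,t) - (j,t+1)` in the state
`true`; and at the bottom, in every period, the corners `2i` and `2i+2`, `i < n`, are joined -/
def Adj (n M : ℕ) (c : Conf n M) (x y : ℤ × ℤ) : Prop :=
  (∃ (j : ℤ) (t : Fin M),
    (c t (H906K.jx (2 * n) j) = false ∧ x = (j, (t : ℤ)) ∧ y = (j + 1, (t : ℤ) + 1)) ∨
    (c t (H906K.jx (2 * n) j) = true ∧ x = (j + 1, (t : ℤ)) ∧ y = (j, (t : ℤ) + 1))) ∨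
  ∃ (k : ℤ) (i : ℕ), i < n ∧ x = (k * (2 * n + 1) + 2 * i, 0) ∧
    y = (k * (2 * n + 1) + 2 * i + 2, 0)

/-- the corners `x`, `y` are joined by an open path -/
def Conn (n M : ℕ) (c : Conf n M) (x y : ℤ × ℤ) : Prop := Relation.EqvGen (Adj n M c) x y

/-- the leftmost corner at the top which is connected to the arc `[0, 2n]` of the bottom -/
noncomputable def left (n M : ℕ) (c : Conf n M) : ℤ :=
  sInf {p : ℤ | Conn n M c (0, 0) (p, (M : ℤ))}

/-- the first `m` rows -/
def rows {n M : ℕ} (c : Conf n M) (m : ℕ) : Conf n m :=
  fun t j => if h : (t : ℕ) < M then c ⟨t, h⟩ j else false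

/-- the polygonal path on `[0,1]` through the points `(i/M, a y_i)`, `i ≤ M` -/
noncomputable def path (a : ℝ) (y : ℕ → ℝ) (M : ℕ) : C(unitInterval, ℝ) :=
  ⟨fun s => a * (y 0 + ∑ i ∈ Finset.range M, (y (i + 1) - y i) * max 0 (min 1 ((s : ℝ) * M - i))),
    by fun_prop⟩

/-- the winding of the crossings as a function of the height: the angle is measured in units in which
the circumference is `2π`, the height is then `T = 2π M / (2n+1)`; time is the height divided by `T`,
and the angle is divided by `√T` -/
noncomputable def wind (n M : ℕ) (c : Conf n M) : C(unitInterval, ℝ) :=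
  path (2 * Real.pi / (2 * n + 1) / √(2 * Real.pi * M / (2 * n + 1)))
    (fun m => (left n m (rows c m) : ℝ)) M

/-- the mean value for independent fair tiles -/
noncomputable def avg (n M : ℕ) (f : Conf n M → ℝ) : ℝ := (∑ c, f c) / 2 ^ ((2 * n + 1) * M)

/-- `W` is the law of Brownian motion on `[0,1]` with variance `v` per unit of time: it starts at `0`,
and its increments over consecutive intervals are independent centred normal variables with
variances `v` times the lengths -/
def IsBM (v : NNReal) (W : Measure C(unitInterval, ℝ)) : Prop :=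
  IsProbabilityMeasure W ∧ (∀ᵐ w ∂W, w 0 = 0) ∧
  ∀ (k : ℕ) (t : Fin (k + 1) → unitInterval), Monotone t →
    W.map (fun w (j : Fin k) => w (t j.succ) - w (t j.castSucc)) =
      Measure.pi (fun j : Fin k =>
        gaussianReal 0 (v * Real.toNNReal ((t j.succ : ℝ) - t j.castSucc)))

open Classical in
theorem result :
    (∀ (n M : ℕ) (c : Conf n M), 1 ≤ n →
      Conn n M c (0, 0) (left n M c, M) ∧ Conn n M c (0, 0) (left n M c + 2 * n, M) ∧
      (∀ p : ℤ, Conn n M c (0, 0) (p, M) → left n M c ≤ p ∧ p ≤ left n M c + 2 * n) ∧
      ∀ X : ℤ, H906K.End n M c X ↔ X = left n M c) ∧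
    ∃ (κ : ℕ → ℝ) (K : ℝ), (∀ n, 1 ≤ n → 0 < κ n) ∧ (∀ n, |κ n - 6| ≤ K / (2 * n + 1)) ∧
    ∃ W : Measure C(unitInterval, ℝ), IsBM 1 W ∧
      (∀ n M : ℕ → ℕ, (∀ i, 1 ≤ n i) →
        Tendsto (fun i => (M i : ℝ) / (2 * n i + 1)) atTop atTop →
        ∀ F : BoundedContinuousFunction C(unitInterval, ℝ) ℝ,
          Tendsto (fun i => avg (n i) (M i) (fun c => F ((1 / √(κ (n i))) • wind (n i) (M i) c)))
            atTop (𝓝 (∫ w, F w ∂W))) ∧
      ∀ n M : ℕ → ℕ, Tendsto n atTop atTop →
        Tendsto (fun i => (M i : ℝ) / (2 * n i + 1)) atTop atTop →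
        (∀ F : BoundedContinuousFunction C(unitInterval, ℝ) ℝ,
          Tendsto (fun i => avg (n i) (M i) (fun c => F (wind (n i) (M i) c)))
            atTop (𝓝 (∫ w, F (√6 • w) ∂W))) ∧
        ∀ x : ℝ, Tendsto (fun i => avg (n i) (M i) (fun c =>
          if ∃ p : ℤ, x * √((2 * n i + 1) * M i / (2 * Real.pi)) ≤ p ∧
            Conn (n i) (M i) c (0, 0) (p, (M i : ℤ)) then (1 : ℝ) else 0)) atTop
          (𝓝 ((gaussianReal 0 6).real (Set.Ici x))) := by
  obtain ⟨hU, D, hD1, K, hD2⟩ := H906K.final
  refine ⟨fun n M c hn => ?_, Y994.KW.kap D, K, ?_, hD2, ?_⟩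
  · have hL : left n M c = Y994.KW.X n M c := Y994.KW.Lft_eq Y994.KW.All.CRS n M c hn
    obtain ⟨h1, h2, h3⟩ := Y994.KW.All.CRS n M c hn
    rw [hL]
    refine ⟨h1, h2, h3, fun X => ?_⟩
    have hE : H906K.End n M c (H906K.Xd n M c) :=
      Classical.epsilon_spec (p := H906K.End n M c) (hU n M c).exists
    rw [← Y994.KW.All.XD n M c hn]
    constructor
    · intro h
      exact (hU n M c).unique h hE
    · rintro rfl
      exact hE
  · exact fun n hn => Y994.KW.kap_pos Y994.KW.All.XD Y994.KW.All.SYM Y994.KW.All.DPOS ⟨hD1, hD2⟩ n hn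
  · exact Y994.KW.main Y994.KW.All.INV Y994.KW.All.CRS Y994.KW.All.XD Y994.KW.All.SYM
      Y994.KW.All.MOM Y994.KW.All.DPOS Y994.KW.All.OSC ⟨hD1, hD2⟩

end Pool.Agent.Results.MP_35f495_pr.BrownianCrossings
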