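import Mathlib
import Pool.Agent.Y996.QH.Fin

/-!
Critical bond percolation on `ε ℤ²` (`p = 1/2`) in the upper half-plane: the crossing probability of
a quadrilateral whose two free sides lie on the boundary of the half-plane is
`exp (- (π / 3) M)` up to universal multiplicative constants, where `M` is the modulus (extremal
distance of the two sides). The constants depend neither on the quadrilateral nor on the mesh.
The modulus is a conformal invariant of the quadrilateral; Cardy's formula predicts a probability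
asymptotic to a constant times `exp (- (π / 3) M)` as `M → ∞`.
-/

set_option autoImplicit false

namespace Pool.Agent.Results.MP_35f495_pr.HalfPlaneQuads

open MeasureTheory

open scoped ENNReal

/-- The square lattice: two points of `ℤ²` are adjacent when they differ by one in exactly one
coordinate. -/
def Z2 : SimpleGraph (ℤ × ℤ) where
  Adj u v := |u.1 - v.1| + |u.2 - v.2| = 1
  symm := ⟨fun u v h => by rw [abs_sub_comm v.1, abs_sub_comm v.2]; exact h⟩
  loopless := ⟨fun u h => by simp at h⟩

/-- Critical bond percolation: every edge of the square lattice is open (`true`) with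
probability `1/2`, independently of the other edges. -/
noncomputable def crit : Measure (Z2.edgeSet → Bool) :=
  Measure.infinitePi (fun _ => ProbabilityTheory.bernoulliMeasure true false
    ⟨1/2, by norm_num, by norm_num⟩)

/-- The graph of the open edges with both endpoints in the closed upper half-plane. -/
def openGraph (ω : Z2.edgeSet → Bool) : SimpleGraph (ℤ × ℤ) :=
  SimpleGraph.fromEdgeSet {e | (∃ h : e ∈ Z2.edgeSet, ω ⟨e, h⟩ = true) ∧ ∀ v ∈ e, 0 ≤ v.2}

/-- The position of the vertex `v` of the lattice `ε ℤ²` in the plane. -/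
def pos (ε : ℝ) (v : ℤ × ℤ) : ℂ := ⟨ε * v.1, ε * v.2⟩

/-- The lattice approximation of `K`: the vertices of `ε ℤ²` in the closed upper half-plane at
distance at most `ε` from `K`. -/
def near (ε : ℝ) (K : Set ℂ) : Set (ℤ × ℤ) := {v | 0 ≤ v.2 ∧ ∃ z ∈ K, dist (pos ε v) z ≤ ε}

/-- The crossing probability: the probability that an open path of `ε ℤ²` in the closed upper
half-plane joins `K` to `L`. -/
noncomputable def cross (ε : ℝ) (K L : Set ℂ) : ℝ :=
  crit.real {ω | ∃ u ∈ near ε K, ∃ v ∈ near ε L, (openGraph ω).Reachable u v}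

/-- The Dirichlet energy in the upper half-plane. -/
noncomputable def energy (u : ℂ → ℝ) : ℝ≥0∞ :=
  ∫⁻ z in {z : ℂ | 0 < z.im}, ENNReal.ofReal (‖fderiv ℝ u z‖ ^ 2)

/-- The infimum of the energies, in the upper half-plane, of the `C¹` functions which are equal to
`0` on `K` and to `1` on `L`. -/
noncomputable def capacity (K L : Set ℂ) : ℝ≥0∞ :=
  ⨅ (u : ℂ → ℝ) (_ : ContDiff ℝ 1 u ∧ (∀ z ∈ K, u z = 0) ∧ ∀ z ∈ L, u z = 1), energy u

/-- The modulus of the quadrilateral between `K` and `L` (the extremal distance of `K` and `L` in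
the upper half-plane): the inverse of the capacity. -/
noncomputable def modulus (K L : Set ℂ) : ℝ := (capacity K L).toReal⁻¹

/-- The part of a subset of the Riemann sphere `ℂ ∪ {∞}` which lies in the plane. -/
def finitePart (A : Set (OnePoint ℂ)) : Set ℂ := {z | (z : OnePoint ℂ) ∈ A}

/-- The closed upper half-plane, with the point `∞`. -/
def upper : Set (OnePoint ℂ) := {p | ∀ z : ℂ, p = (z : OnePoint ℂ) → 0 ≤ z.im}

/-- The boundary of the half-plane: the real line, with the point `∞`. -/
def realLine : Set (OnePoint ℂ) := {p | ∀ z : ℂ, p = (z : OnePoint ℂ) → z.im = 0}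

theorem openGraph_adj (ω : Z2.edgeSet → Bool) (u v : ℤ × ℤ) :
    (openGraph ω).Adj u v ↔ H974.Adj (H974.opn ω ∩ {e | 0 ≤ e.2.1}) u v := by
  have hs : ∀ e : H974.Edg, (0 ≤ e.2.1 ↔ 0 ≤ (H974.src e).2 ∧ 0 ≤ (H974.tgt e).2) := by
    rintro ⟨x, y, b⟩
    cases b
    · show 0 ≤ y ↔ 0 ≤ y ∧ 0 ≤ y + 1
      omega
    · show 0 ≤ y ↔ 0 ≤ y ∧ 0 ≤ y
      omega
  unfold openGraph
  rw [SimpleGraph.fromEdgeSet_adj]
  constructor
  · rintro ⟨⟨⟨h, hω⟩, hV⟩, hne⟩
    have hadj : (H974.openGraph ω).Adj u v := by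
      unfold H974.openGraph
      rw [SimpleGraph.fromEdgeSet_adj]
      exact ⟨⟨h, hω⟩, hne⟩
    obtain ⟨e, he, hcase⟩ := (H974.openGraph_adj ω u v).mp hadj
    have hu : 0 ≤ u.2 := hV u (Sym2.mem_mk_left u v)
    have hv : 0 ≤ v.2 := hV v (Sym2.mem_mk_right u v)
    refine ⟨e, ⟨he, (hs e).mpr ?_⟩, hcase⟩
    rcases hcase with ⟨h1, h2⟩ | ⟨h1, h2⟩
    · exact ⟨by rw [h1]; exact hu, by rw [h2]; exact hv⟩
    · exact ⟨by rw [h1]; exact hv, by rw [h2]; exact hu⟩
  · rintro ⟨e, ⟨he, hV⟩, hcase⟩
    have hadj : (H974.openGraph ω).Adj u v := (H974.openGraph_adj ω u v).mpr ⟨e, he, hcase⟩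
    unfold H974.openGraph at hadj
    rw [SimpleGraph.fromEdgeSet_adj] at hadj
    obtain ⟨h1', h2'⟩ := (hs e).mp hV
    refine ⟨⟨hadj.1, ?_⟩, hadj.2⟩
    intro w hw
    rcases Sym2.mem_iff.mp hw with rfl | rfl
    · rcases hcase with ⟨h1, h2⟩ | ⟨h1, h2⟩
      · rw [← h1]; exact h1'
      · rw [← h2]; exact h2'
    · rcases hcase with ⟨h1, h2⟩ | ⟨h1, h2⟩
      · rw [← h2]; exact h2'
      · rw [← h1]; exact h1'

theorem cross_eq (ε : ℝ) (K L : Set ℂ) : cross ε K L = Y996.QH.crossH ε K L := by
  have h : cross ε K L = (H974.bondLaw Y996.RD.hlf).real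
      {ω | ∃ u ∈ near ε K, ∃ v ∈ near ε L, (openGraph ω).Reachable u v} := rfl
  have key : ∀ (ω : Z2.edgeSet → Bool) (u v : ℤ × ℤ), (openGraph ω).Reachable u v ↔
      H974.Reach (H974.opn ω ∩ {e | 0 ≤ e.2.1}) u v := by
    intro ω u v
    rw [SimpleGraph.reachable_iff_reflTransGen]
    have : (openGraph ω).Adj = H974.Adj (H974.opn ω ∩ {e | 0 ≤ e.2.1}) := by
      funext u v
      exact propext (openGraph_adj ω u v)
    rw [this]
    rfl
  rw [h]
  unfold Y996.QH.crossH
  congr 1
  ext ω
  constructor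
  · rintro ⟨u, hu, v, hv, hr⟩
    exact ⟨u, hu, v, hv, (key ω u v).mp hr⟩
  · rintro ⟨u, hu, v, hv, hr⟩
    exact ⟨u, hu, v, hv, (key ω u v).mpr hr⟩

/-- **Crossing probabilities of quadrilaterals of the half-plane.** There are universal constants
`c, C > 0` such that, for all disjoint closed connected subsets `A`, `B` of the closed upper
half-plane (with the point `∞`) which touch its boundary and are not smaller than the mesh `ε`, the
probability that an open path of `ε ℤ²` in the half-plane joins `A` to `B` is between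
`c exp (- (π / 3) M)` and `C exp (- (π / 3) M)`, `M` the modulus of the quadrilateral. -/
theorem result : ∃ c C : ℝ, 0 < c ∧ 0 < C ∧ ∀ (A B : Set (OnePoint ℂ)) (ε : ℝ),
    IsClosed A → IsConnected A → IsClosed B → IsConnected B → Disjoint A B →
    A ⊆ upper → B ⊆ upper → (A ∩ realLine).Nonempty → (B ∩ realLine).Nonempty → 0 < ε →
    (∃ x ∈ finitePart A, ∃ y ∈ finitePart A, ε ≤ dist x y) →
    (∃ x ∈ finitePart B, ∃ y ∈ finitePart B, ε ≤ dist x y) →
    c * Real.exp (-(Real.pi / 3) * modulus (finitePart A) (finitePart B)) ≤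
      cross ε (finitePart A) (finitePart B) ∧
    cross ε (finitePart A) (finitePart B) ≤
      C * Real.exp (-(Real.pi / 3) * modulus (finitePart A) (finitePart B)) := by
  obtain ⟨c, C, hc, hC, h⟩ := Y996.QH.main
  have side : ∀ A : Set (OnePoint ℂ), IsClosed A → IsConnected A → A ⊆ upper →
      (A ∩ realLine).Nonempty → Y996.QH.Side A := by
    intro A h1 h2 h3 h4
    refine ⟨h1, h2.isPreconnected, fun x hx => h3 hx x rfl, ?_⟩
    obtain ⟨p, hp, hp'⟩ := h4
    induction p using OnePoint.rec with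
    | infty => exact Or.inl hp
    | coe z =>
      right
      have hz : z.im = 0 := hp' z rfl
      refine ⟨z.re, ?_⟩
      have e : ((z.re : ℝ) : ℂ) = z := Complex.ext (by simp) (by simp [hz])
      rw [e]
      exact hp
  refine ⟨c, C, hc, hC, fun A B ε hA hA' hB hB' hd hAu hBu hAr hBr hε h1 h2 => ?_⟩
  have := h A B ε (side A hA hA' hAu hAr) (side B hB hB' hBu hBr) hd hε h1 h2
  rw [← cross_eq] at this
  exact this

end Pool.Agent.Results.MP_35f495_pr.HalfPlaneQuads
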