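import Mathlib
import Pool.Agent.Y996.NL.Main

/-!
Critical bond percolation on `ε ℤ²` (`p = 1/2`): the law of the number of interfaces which separate
the two boundary components of a doubly connected domain of the Riemann sphere.

Colour the open edges and their endpoints in one colour, the dual edges which cross the closed edges
and their endpoints in the other colour, and let `N` be the minimal number of changes of colour
(`changes`) of a path from one boundary component to the other one. For every `t ≥ 0` the generating
function `E (t ^ N)` is, up to constants which depend only on `t`, `exp (2 π Ψ(t) M)`, where `M` is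
the modulus of the domain, a conformal invariant (`M = log R / (2 π)` for the round annulus
`1 < |z| < R`, for which the formula reads `R ^ Ψ(t)`). For `t = 0` the generating function is the
crossing probability, and `Ψ(0) = - 5 / 48`.
-/

set_option autoImplicit false

namespace Pool.Agent.Results.MP_35f495_pr.NestedLayers

open MeasureTheory

open scoped ENNReal

/-- The square lattice: two points of `ℤ²` are adjacent when they differ by one in exactly one
coordinate. -/
def Z2 : SimpleGraph (ℤ × ℤ) where
  Adj u v := |u.1 - v.1| + |u.2 - v.2| = 1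
  symm := ⟨fun u v h => by rw [abs_sub_comm v.1, abs_sub_comm v.2]; exact h⟩
  loopless := ⟨fun u h => by simp at h⟩

/-- Critical bond percolation: every edge of the square lattice is open (`true`) with
probability `1/2`, independently of the other edges. -/
noncomputable def crit : Measure (Z2.edgeSet → Bool) :=
  Measure.infinitePi (fun _ => ProbabilityTheory.bernoulliMeasure true false
    ⟨1/2, by norm_num, by norm_num⟩)

/-- The graph of the open edges. -/
def openGraph (ω : Z2.edgeSet → Bool) : SimpleGraph (ℤ × ℤ) :=
  SimpleGraph.fromEdgeSet {e | ∃ h : e ∈ Z2.edgeSet, ω ⟨e, h⟩ = true}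

/-- The points: `((x, y), true)` is the vertex `(x, y)` of `ℤ²` and `((x, y), false)` is the
vertex `(x + 1/2, y + 1/2)` of the dual lattice. -/
abbrev Pt := (ℤ × ℤ) × Bool

/-- The vertex `v` of `ℤ²` is one of the four corners of the square of the dual vertex `w`. -/
def Corner (v w : ℤ × ℤ) : Prop := (v.1 = w.1 ∨ v.1 = w.1 + 1) ∧ (v.2 = w.2 ∨ v.2 = w.2 + 1)

/-- Moves without change of colour: along an open edge, or from a dual vertex to a neighbouring
dual vertex across a closed edge (the edge between the two common corners of their squares). -/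
inductive Free (ω : Z2.edgeSet → Bool) : Pt → Pt → Prop
  | primal {u v : ℤ × ℤ} (h : (openGraph ω).Adj u v) : Free ω (u, true) (v, true)
  | dual {u v x y : ℤ × ℤ} (huv : u ≠ v) (hxy : Z2.Adj x y) (hclosed : ¬ (openGraph ω).Adj x y)
      (h1 : Corner x u) (h2 : Corner y u) (h3 : Corner x v) (h4 : Corner y v) :
      Free ω (u, false) (v, false)

/-- Change of colour: from a vertex to the dual vertex of one of the four squares around it, or
back. -/
inductive Change : Pt → Pt → Prop
  | out {v w : ℤ × ℤ} (h : Corner v w) : Change (v, true) (w, false)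
  | back {v w : ℤ × ℤ} (h : Corner v w) : Change (w, false) (v, true)

/-- The point `p` can be reached from a vertex of `P` with at most `k` changes of colour. -/
inductive Reach (ω : Z2.edgeSet → Bool) (P : Set (ℤ × ℤ)) : ℕ → Pt → Prop
  | start {v : ℤ × ℤ} (h : v ∈ P) (k : ℕ) : Reach ω P k (v, true)
  | free {k : ℕ} {p q : Pt} (h : Reach ω P k p) (hpq : Free ω p q) : Reach ω P k q
  | change {k : ℕ} {p q : Pt} (h : Reach ω P k p) (hpq : Change p q) : Reach ω P (k + 1) q

/-- The number of interfaces between `P` and `Q`: the minimal number of changes of colour of a path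
from a vertex of `P` to a vertex of `Q`. -/
noncomputable def changes (P Q : Set (ℤ × ℤ)) (ω : Z2.edgeSet → Bool) : ℕ :=
  sInf {k | ∃ v ∈ Q, Reach ω P k (v, true)}

/-- The position of the vertex `v` of the lattice `ε ℤ²` in the plane. -/
def pos (ε : ℝ) (v : ℤ × ℤ) : ℂ := ⟨ε * v.1, ε * v.2⟩

/-- The lattice approximation of `K`: the vertices of `ε ℤ²` at distance at most `ε` from `K`. -/
def near (ε : ℝ) (K : Set ℂ) : Set (ℤ × ℤ) := {v | ∃ z ∈ K, dist (pos ε v) z ≤ ε}

/-- The Dirichlet energy: the integral over the plane of the square of the norm of the gradient. -/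
noncomputable def energy (u : ℂ → ℝ) : ℝ≥0∞ := ∫⁻ z, ENNReal.ofReal (‖fderiv ℝ u z‖ ^ 2)

/-- The capacity of the condenser with the plates `K` and `L`: the infimum of the energies of the
`C¹` functions which are equal to `0` on `K` and to `1` on `L`. -/
noncomputable def capacity (K L : Set ℂ) : ℝ≥0∞ :=
  ⨅ (u : ℂ → ℝ) (_ : ContDiff ℝ 1 u ∧ (∀ z ∈ K, u z = 0) ∧ ∀ z ∈ L, u z = 1), energy u

/-- The modulus of the domain between `K` and `L` (the extremal distance of `K` and `L`): the inverse
of the capacity. -/
noncomputable def modulus (K L : Set ℂ) : ℝ := (capacity K L).toReal⁻¹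

/-- The part of a subset of the Riemann sphere `ℂ ∪ {∞}` which lies in the plane. -/
def finitePart (A : Set (OnePoint ℂ)) : Set ℂ := {z | (z : OnePoint ℂ) ∈ A}

/-- The exponent: `3 / (4 π²) (π² / 9 - arccos² (t / 2))` if `t ≤ 2` and
`3 / (4 π²) (π² / 9 + arcosh² (t / 2))` if `t ≥ 2`. -/
noncomputable def Psi (t : ℝ) : ℝ :=
  3 / (4 * Real.pi ^ 2) *
    (Real.pi ^ 2 / 9 - Real.arccos (t / 2) ^ 2 + Real.arcosh (max (t / 2) 1) ^ 2)

/-- The generating function of the number of interfaces between `K` and `L` at mesh `ε`. -/
noncomputable def genFun (t ε : ℝ) (K L : Set ℂ) : ℝ :=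
  ∫ ω, t ^ changes (near ε K) (near ε L) ω ∂crit

theorem free_iff {ω : Z2.edgeSet → Bool} {p q : Pt} :
    Free ω p q ↔ Pool.Agent.H863R2.NL.Free ω p q := by
  constructor
  · rintro (h | ⟨h0, h1, h2, h3, h4, h5, h6⟩)
    · exact Pool.Agent.H863R2.NL.Free.primal h
    · exact Pool.Agent.H863R2.NL.Free.dual h0 h1 h2 h3 h4 h5 h6
  · rintro (h | ⟨h0, h1, h2, h3, h4, h5, h6⟩)
    · exact Free.primal h
    · exact Free.dual h0 h1 h2 h3 h4 h5 h6

theorem change_iff {p q : Pt} : Change p q ↔ Pool.Agent.H863R2.NL.Change p q := by
  constructor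
  · rintro (h | h)
    · exact Pool.Agent.H863R2.NL.Change.out h
    · exact Pool.Agent.H863R2.NL.Change.back h
  · rintro (h | h)
    · exact Change.out h
    · exact Change.back h

theorem changes_eq (P Q : Set (ℤ × ℤ)) (ω : Z2.edgeSet → Bool) :
    changes P Q ω = Pool.Agent.Y996.NL.NP (H974.opn ω) P Q := by
  refine Pool.Agent.Y996.NL.np_eq (ω := ω) (P := P) (Q := Q) (Rch := Reach ω P) ?_
    (fun u hu k => Reach.start hu k) (fun k p q h hf => h.free (free_iff.mpr hf))
    (fun k p q h hc => h.change (change_iff.mpr hc))
  intro k p h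
  induction h with
  | @start v h k => exact ⟨v, h, Pool.Agent.W819.EN.Ch.refl _ _⟩
  | free _ hpq ih =>
    obtain ⟨u, hu, h'⟩ := ih
    exact ⟨u, hu, h'.rel (Pool.Agent.H863R2.NL.InfAux.free_iff.mp (free_iff.mp hpq))⟩
  | change _ hpq ih =>
    obtain ⟨u, hu, h'⟩ := ih
    exact ⟨u, hu, h'.step (Pool.Agent.H863R2.NL.InfAux.change_iff.mp (change_iff.mp hpq))⟩

/-- **The interfaces of doubly connected domains.** For every `t ≥ 0` there are constants `c, C > 0`
such that, for all disjoint closed connected subsets `A`, `B` of the Riemann sphere (the two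
complementary components of a doubly connected domain) which are not smaller than the mesh `ε`,
`E (t ^ N)` is between `c exp (2 π Ψ(t) M)` and `C exp (2 π Ψ(t) M)`, `N` the minimal number of
changes of colour of a path from `A` to `B` and `M` the modulus of the domain. -/
theorem result (t : ℝ) (ht : 0 ≤ t) : ∃ c C : ℝ, 0 < c ∧ 0 < C ∧
    ∀ (A B : Set (OnePoint ℂ)) (ε : ℝ),
    IsClosed A → IsConnected A → IsClosed B → IsConnected B → Disjoint A B → 0 < ε →
    (∃ x ∈ finitePart A, ∃ y ∈ finitePart A, ε ≤ dist x y) →
    (∃ x ∈ finitePart B, ∃ y ∈ finitePart B, ε ≤ dist x y) →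
    c * Real.exp (2 * Real.pi * Psi t * modulus (finitePart A) (finitePart B)) ≤
      genFun t ε (finitePart A) (finitePart B) ∧
    genFun t ε (finitePart A) (finitePart B) ≤
      C * Real.exp (2 * Real.pi * Psi t * modulus (finitePart A) (finitePart B)) := by
  obtain ⟨c, C, hc, hC, h⟩ := Pool.Agent.Y996.NL.main ht
  refine ⟨c, C, hc, hC, fun A B ε hA hA' hB hB' hd hε h1 h2 => ?_⟩
  have e : genFun t ε (finitePart A) (finitePart B) =
      ∫ ω, t ^ Pool.Agent.Y996.NL.NP (H974.opn ω) (near ε (finitePart A))
        (near ε (finitePart B)) ∂(H974.bondLaw H974.hlf) := by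
    unfold genFun
    simp only [changes_eq]
    rfl
  rw [e]
  exact h A B ε hA hA'.isPreconnected hB hB'.isPreconnected hd hε h1 h2

end Pool.Agent.Results.MP_35f495_pr.NestedLayers
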