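import Mathlib
import Pool.Agent.Y989.SD.Fin
import Pool.Agent.Y989.SD.Main

/-!
Critical bond percolation on `ε ℤ²` (`p = 1/2`) in a Jordan domain with `C^(1,α)` boundary: the
probability that two disjoint boundary arcs are joined by an open path inside the domain is given by
Cardy's formula, up to multiplicative constants which depend only on the domain: they do not depend
on the arcs (which may be as small as the mesh, and as close to each other as one likes) nor on the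
mesh. The value of Cardy's formula is a conformal invariant of the domain and the four end points.
-/

set_option autoImplicit false

namespace Pool.Agent.Results.MP_35f495_pr.SmoothDomains

open MeasureTheory

/-- The square lattice: two points of `ℤ²` are adjacent when they differ by one in exactly one
coordinate. -/
def Z2 : SimpleGraph (ℤ × ℤ) where
  Adj u v := |u.1 - v.1| + |u.2 - v.2| = 1
  symm := ⟨fun u v h => by rw [abs_sub_comm v.1, abs_sub_comm v.2]; exact h⟩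
  loopless := ⟨fun u h => by simp at h⟩

/-- Critical bond percolation: every edge of the square lattice is open (`true`) with
probability `1/2`, independently of the other edges. -/
noncomputable def crit : Measure (Z2.edgeSet → Bool) :=
  Measure.infinitePi (fun _ => ProbabilityTheory.bernoulliMeasure true false
    ⟨1/2, by norm_num, by norm_num⟩)

/-- The position of the vertex `v` of the lattice `ε ℤ²` in the plane. -/
noncomputable def pos (ε : ℝ) (v : ℤ × ℤ) : ℂ := ⟨ε * v.1, ε * v.2⟩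

/-- The graph of the open edges of `ε ℤ²` with both endpoints in `D`. -/
def openGraph (ε : ℝ) (D : Set ℂ) (ω : Z2.edgeSet → Bool) : SimpleGraph (ℤ × ℤ) :=
  SimpleGraph.fromEdgeSet {e | (∃ h : e ∈ Z2.edgeSet, ω ⟨e, h⟩ = true) ∧ ∀ v ∈ e, pos ε v ∈ D}

/-- The lattice approximation of the boundary arc `A` of `D`: the vertices of `ε ℤ²` in `D` at
distance at most `2 ε` from `A`. -/
def near (ε : ℝ) (D A : Set ℂ) : Set (ℤ × ℤ) :=
  {v | pos ε v ∈ D ∧ ∃ z ∈ A, dist (pos ε v) z ≤ 2 * ε}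

/-- The crossing probability: the probability that an open path of `ε ℤ²` in `D` joins `A` to
`B`. -/
noncomputable def cross (ε : ℝ) (D A B : Set ℂ) : ℝ :=
  crit.real {ω | ∃ u ∈ near ε D A, ∃ v ∈ near ε D B, (openGraph ε D ω).Reachable u v}

/-- The closed unit disc. -/
def disc : Set ℂ := Metric.closedBall 0 1

/-- `f` parametrizes a Jordan domain with `C^(1,α)` boundary, `0 < α ≤ 1`: it is injective and
continuous on the closed unit disc, conformal in the open unit disc, and its derivative extends to a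
Hölder continuous function `g` without zeros on the closed unit disc. (By the theorem of Kellogg and
Warschawski the Riemann maps onto Jordan domains with `C^(1,α)` boundary, `0 < α < 1`, have this
property.) -/
def Smooth (f : ℂ → ℂ) : Prop :=
  Set.InjOn f disc ∧ ContinuousOn f disc ∧ ∃ (g : ℂ → ℂ) (M α : ℝ), 0 < α ∧ α ≤ 1 ∧
    (∀ z, ‖z‖ < 1 → HasDerivAt f (g z) z) ∧ (∀ z ∈ disc, g z ≠ 0) ∧
    ∀ z ∈ disc, ∀ w ∈ disc, ‖g z - g w‖ ≤ M * ‖z - w‖ ^ α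

/-- The point of the unit circle of argument `θ`. -/
noncomputable def cir (θ : ℝ) : ℂ := Complex.exp (θ * Complex.I)

/-- The boundary arc of the domain `f '' disc` from `f (cir a)` to `f (cir b)`. -/
def arc (f : ℂ → ℂ) (a b : ℝ) : Set ℂ := (fun θ => f (cir θ)) '' Set.Icc a b

/-- The cross-ratio of four points of the unit circle in cyclic order. -/
noncomputable def crossRatio (z₁ z₂ z₃ z₄ : ℂ) : ℝ :=
  ‖z₂ - z₁‖ * ‖z₄ - z₃‖ / (‖z₃ - z₁‖ * ‖z₄ - z₂‖)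

/-- Cardy's function: the predicted limit of the crossing probability, as a function of the
cross-ratio. -/
noncomputable def cardy (x : ℝ) : ℝ :=
  (∫ t in (0 : ℝ)..x, (t * (1 - t)) ^ (-(2 / 3 : ℝ))) /
    ∫ t in (0 : ℝ)..1, (t * (1 - t)) ^ (-(2 / 3 : ℝ))

open Y989.SD in
theorem openGraph_adj {f : ℂ → ℂ} {ε : ℝ} (h : ∀ v, v ∈ TD f ε ↔ Y989.SD.pos ε v ∈ f '' Y989.SD.disc)
    (ω : Z2.edgeSet → Bool) (u v : ℤ × ℤ) :
    (openGraph ε (f '' disc) ω).Adj u v ↔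
      H974.Adj (H974.FF (H973.ES (TD f ε)) ω : Set H974.Edg) u v := by
  have hs : ∀ w, pos ε w ∈ f '' disc ↔ w ∈ TD f ε := fun w => (h w).symm
  unfold openGraph
  rw [SimpleGraph.fromEdgeSet_adj]
  constructor
  · rintro ⟨⟨⟨h, hω⟩, hV⟩, hne⟩
    have hadj : (H974.openGraph ω).Adj u v := by
      unfold H974.openGraph
      rw [SimpleGraph.fromEdgeSet_adj]
      exact ⟨⟨h, hω⟩, hne⟩
    obtain ⟨e, he, hcase⟩ := (H974.openGraph_adj ω u v).mp hadj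
    have hu : u ∈ TD f ε := (hs u).mp (hV u (Sym2.mem_mk_left u v))
    have hv : v ∈ TD f ε := (hs v).mp (hV v (Sym2.mem_mk_right u v))
    refine ⟨e, ?_, hcase⟩
    rw [Finset.mem_coe, H974.mem_FF, H973.mem_ES]
    refine ⟨?_, he⟩
    rcases hcase with ⟨h1, h2⟩ | ⟨h1, h2⟩
    · rw [h1, h2]; exact ⟨hu, hv⟩
    · rw [h1, h2]; exact ⟨hv, hu⟩
  · rintro ⟨e, he, hcase⟩
    rw [Finset.mem_coe, H974.mem_FF, H973.mem_ES] at he
    have hadj : (H974.openGraph ω).Adj u v := (H974.openGraph_adj ω u v).mpr ⟨e, he.2, hcase⟩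
    unfold H974.openGraph at hadj
    rw [SimpleGraph.fromEdgeSet_adj] at hadj
    refine ⟨⟨hadj.1, ?_⟩, hadj.2⟩
    intro w hw
    rw [hs]
    rcases Sym2.mem_iff.mp hw with rfl | rfl
    · rcases hcase with ⟨h1, h2⟩ | ⟨h1, h2⟩
      · rw [← h1]; exact he.1.1
      · rw [← h2]; exact he.1.2
    · rcases hcase with ⟨h1, h2⟩ | ⟨h1, h2⟩
      · rw [← h2]; exact he.1.2
      · rw [← h1]; exact he.1.1

theorem cross_eq {f : ℂ → ℂ} {ε : ℝ}
    (h : ∀ v, v ∈ Y989.SD.TD f ε ↔ Y989.SD.pos ε v ∈ f '' Y989.SD.disc) (θ₁ θ₂ θ₃ θ₄ : ℝ) :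
    cross ε (f '' disc) (arc f θ₁ θ₂) (arc f θ₃ θ₄) = Y989.SD.PC f ε θ₁ θ₂ θ₃ θ₄ := by
  have hnear : ∀ a b, near ε (f '' disc) (arc f a b) = Y989.SD.near f ε a b := by
    intro a b
    ext v
    constructor
    · rintro ⟨h1, z, ⟨θ, ⟨h2, h3⟩, rfl⟩, h4⟩
      exact ⟨(h v).mpr h1, θ, h2, h3, by rw [dist_eq_norm] at h4; exact h4⟩
    · rintro ⟨h1, θ, h2, h3, h4⟩
      exact ⟨(h v).mp h1, f (cir θ), ⟨θ, ⟨h2, h3⟩, rfl⟩, by rw [dist_eq_norm]; exact h4⟩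
  have e : cross ε (f '' disc) (arc f θ₁ θ₂) (arc f θ₃ θ₄) = (H974.bondLaw H974.hlf).real
      {ω | ∃ u ∈ Y989.SD.near f ε θ₁ θ₂, ∃ v ∈ Y989.SD.near f ε θ₃ θ₄,
        (openGraph ε (f '' disc) ω).Reachable u v} := by
    unfold cross
    rw [hnear, hnear]
    rfl
  rw [e]
  have key : ∀ (ω : Z2.edgeSet → Bool) (u v : ℤ × ℤ), (openGraph ε (f '' disc) ω).Reachable u v ↔
      H974.Reach (H974.FF (H973.ES (Y989.SD.TD f ε)) ω : Set H974.Edg) u v := by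
    intro ω u v
    rw [SimpleGraph.reachable_iff_reflTransGen]
    have : (openGraph ε (f '' disc) ω).Adj =
        H974.Adj (H974.FF (H973.ES (Y989.SD.TD f ε)) ω : Set H974.Edg) := by
      funext u v
      exact propext (openGraph_adj h ω u v)
    rw [this]
    rfl
  have e2 : {ω : Z2.edgeSet → Bool | ∃ u ∈ Y989.SD.near f ε θ₁ θ₂, ∃ v ∈ Y989.SD.near f ε θ₃ θ₄,
        (openGraph ε (f '' disc) ω).Reachable u v} =
      {ω | (fun F : Finset H974.Edg => ∃ u ∈ Y989.SD.near f ε θ₁ θ₂,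
        ∃ w ∈ Y989.SD.near f ε θ₃ θ₄, H974.Reach (F : Set H974.Edg) u w)
          (H974.FF (H973.ES (Y989.SD.TD f ε)) ω)} := by
    ext ω
    constructor
    · rintro ⟨u, hu, v, hv, hr⟩
      exact ⟨u, hu, v, hv, (key ω u v).mp hr⟩
    · rintro ⟨u, hu, v, hv, hr⟩
      exact ⟨u, hu, v, hv, (key ω u v).mpr hr⟩
  have h6 := H974.law_event H974.hlf (H973.ES (Y989.SD.TD f ε))
    (fun F : Finset H974.Edg => ∃ u ∈ Y989.SD.near f ε θ₁ θ₂,
        ∃ w ∈ Y989.SD.near f ε θ₃ θ₄, H974.Reach (F : Set H974.Edg) u w)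
  exact (congrArg (fun s => (H974.bondLaw H974.hlf).real s) e2).trans h6

theorem norm_cir_sub (a b : ℝ) : ‖cir a - cir b‖ = 2 * |Real.sin ((a - b) / 2)| := by
  have h1 : cir a - cir b =
      Complex.exp (b * Complex.I) * (Complex.exp (Complex.I * ((a - b : ℝ) : ℂ)) - 1) := by
    unfold cir
    rw [mul_sub, ← Complex.exp_add, mul_one]
    congr 2
    push_cast
    ring
  rw [h1, norm_mul, Complex.norm_exp_ofReal_mul_I, one_mul,
    Complex.norm_exp_I_mul_ofReal_sub_one, norm_mul, Real.norm_eq_abs, Real.norm_eq_abs,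
    abs_of_pos (by norm_num : (0 : ℝ) < 2)]

theorem crossRatio_eq {θ₁ θ₂ θ₃ θ₄ : ℝ} (h1 : θ₁ < θ₂) (h2 : θ₂ < θ₃) (h3 : θ₃ < θ₄)
    (h4 : θ₄ < θ₁ + 2 * Real.pi) :
    crossRatio (cir θ₁) (cir θ₂) (cir θ₃) (cir θ₄) = Y989.SD.xr θ₁ θ₂ θ₃ θ₄ := by
  have hp : ∀ a b : ℝ, a < b → b < a + 2 * Real.pi →
      ‖cir b - cir a‖ = 2 * Real.sin ((b - a) / 2) := by
    intro a b hab hba
    rw [norm_cir_sub, abs_of_pos]
    apply Real.sin_pos_of_pos_of_lt_pi <;> linarith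
  have s1 : 0 < Real.sin ((θ₃ - θ₁) / 2) := by
    apply Real.sin_pos_of_pos_of_lt_pi <;> linarith
  have s2 : 0 < Real.sin ((θ₄ - θ₂) / 2) := by
    apply Real.sin_pos_of_pos_of_lt_pi <;> linarith
  unfold crossRatio Y989.SD.xr
  rw [hp θ₁ θ₂ h1 (by linarith), hp θ₃ θ₄ h3 (by linarith), hp θ₁ θ₃ (by linarith) (by linarith),
    hp θ₂ θ₄ (by linarith) (by linarith)]
  field_simp

theorem main_of (h1 : Y989.SD.S_GD) (h2 : Y989.SD.S_AUP) (h3 : Y989.SD.S_ALO) (h4 : Y989.SD.S_XR)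
    (h5 : Y989.SD.S_CDY) (f : ℂ → ℂ) (hf : Smooth f) : ∃ c C ε₀ : ℝ, 0 < c ∧ 0 < C ∧ 0 < ε₀ ∧
    ∀ ε θ₁ θ₂ θ₃ θ₄ : ℝ, 0 < ε → ε ≤ ε₀ → θ₁ < θ₂ → θ₂ < θ₃ → θ₃ < θ₄ → θ₄ < θ₁ + 2 * Real.pi →
      ε ≤ θ₂ - θ₁ → ε ≤ θ₄ - θ₃ →
      c * cardy (crossRatio (cir θ₁) (cir θ₂) (cir θ₃) (cir θ₄)) ≤
        cross ε (f '' disc) (arc f θ₁ θ₂) (arc f θ₃ θ₄) ∧
      cross ε (f '' disc) (arc f θ₁ θ₂) (arc f θ₃ θ₄) ≤
        C * cardy (crossRatio (cir θ₁) (cir θ₂) (cir θ₃) (cir θ₄)) := by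
  obtain ⟨hi, hc, g, M, α, ha0, ha1, hd, hn, hg⟩ := hf
  have hW : Y989.SD.SmW f g M α := Y989.SD.smW_of ha0 ha1 hi hc hd hn hg
  obtain ⟨ρ, B, e0, -, he0, hGD⟩ := h1 f g M α hW
  obtain ⟨C1, e1, hC1, he1, hU⟩ := h2 f ⟨g, M, α, hW⟩
  obtain ⟨c1, e2, hc1, he2, hL⟩ := h3 f ⟨g, M, α, hW⟩
  obtain ⟨c2, C2, hc2, hC2, hX⟩ := h4
  obtain ⟨c3, C3, hc3, hC3, hD⟩ := h5
  have p2 : 0 < c2 ^ (1 / 3 : ℝ) := Real.rpow_pos_of_pos hc2 _
  have q2 : 0 < C2 ^ (1 / 3 : ℝ) := Real.rpow_pos_of_pos hC2 _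
  refine ⟨c1 / (C2 ^ (1 / 3 : ℝ) * C3), C1 / (c2 ^ (1 / 3 : ℝ) * c3), min e0 (min e1 e2),
    by positivity, by positivity, lt_min he0 (lt_min he1 he2), ?_⟩
  intro ε θ₁ θ₂ θ₃ θ₄ hε hε' t1 t2 t3 t4 a1 a2
  have hε0 : ε ≤ e0 := hε'.trans (min_le_left _ _)
  have hε1 : ε ≤ e1 := hε'.trans ((min_le_right _ _).trans (min_le_left _ _))
  have hε2 : ε ≤ e2 := hε'.trans ((min_le_right _ _).trans (min_le_right _ _))
  rw [crossRatio_eq t1 t2 t3 t4, cross_eq (hGD ε hε hε0).1]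
  have hu := hU ε θ₁ θ₂ θ₃ θ₄ hε hε1 t1 t2 t3 t4 a1 a2
  have hl := hL ε θ₁ θ₂ θ₃ θ₄ hε hε2 t1 t2 t3 t4 a1 a2
  obtain ⟨x0, x1, xl, xu⟩ := hX θ₁ θ₂ θ₃ θ₄ t1 t2 t3 t4
  obtain ⟨dl, du⟩ := hD _ x0 x1
  have hcar : ∀ x, cardy x = Y989.SD.cardy x := fun _ => rfl
  rw [hcar]
  set x := Y989.SD.xr θ₁ θ₂ θ₃ θ₄ with hx
  set E := Y989.SD.EE θ₁ θ₂ θ₃ θ₄ with hE
  have hE0 : 0 ≤ E := by
    by_contra hneg
    push Not at hneg
    have : C2 * E < 0 := mul_neg_of_pos_of_neg hC2 hneg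
    linarith
  have r1 : c2 ^ (1 / 3 : ℝ) * E ^ (1 / 3 : ℝ) ≤ x ^ (1 / 3 : ℝ) := by
    rw [← Real.mul_rpow hc2.le hE0]
    exact Real.rpow_le_rpow (mul_nonneg hc2.le hE0) xl (by norm_num)
  have r2 : x ^ (1 / 3 : ℝ) ≤ C2 ^ (1 / 3 : ℝ) * E ^ (1 / 3 : ℝ) := by
    rw [← Real.mul_rpow hC2.le hE0]
    exact Real.rpow_le_rpow x0.le xu (by norm_num)
  constructor
  · refine le_trans ?_ hl
    rw [div_mul_eq_mul_div, div_le_iff₀ (by positivity)]
    calc c1 * Y989.SD.cardy x ≤ c1 * (C3 * x ^ (1 / 3 : ℝ)) := mul_le_mul_of_nonneg_left du hc1.le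
      _ ≤ c1 * (C3 * (C2 ^ (1 / 3 : ℝ) * E ^ (1 / 3 : ℝ))) := by
          apply mul_le_mul_of_nonneg_left _ hc1.le
          exact mul_le_mul_of_nonneg_left r2 hC3.le
      _ = c1 * E ^ (1 / 3 : ℝ) * (C2 ^ (1 / 3 : ℝ) * C3) := by ring
  · refine hu.trans ?_
    rw [div_mul_eq_mul_div, le_div_iff₀ (by positivity)]
    calc C1 * E ^ (1 / 3 : ℝ) * (c2 ^ (1 / 3 : ℝ) * c3) =
          C1 * (c3 * (c2 ^ (1 / 3 : ℝ) * E ^ (1 / 3 : ℝ))) := by ring
      _ ≤ C1 * (c3 * x ^ (1 / 3 : ℝ)) := by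
          apply mul_le_mul_of_nonneg_left _ hC1.le
          exact mul_le_mul_of_nonneg_left r1 hc3.le
      _ ≤ C1 * Y989.SD.cardy x := mul_le_mul_of_nonneg_left dl hC1.le

/-- **Cardy's formula up to constants in all `C^(1,α)` Jordan domains.** Let `f` be a
parametrization of a Jordan domain `D = f '' disc` with `C^(1,α)` boundary. There are constants
`c, C, ε₀ > 0` such that for every mesh `ε ≤ ε₀` and all pairs of disjoint boundary arcs
`f (cir [θ₁, θ₂])`, `f (cir [θ₃, θ₄])` of angular length at least `ε`, the probability that critical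
bond percolation on `ε ℤ²` contains an open path in `D` which joins the two arcs is between
`c F` and `C F`, where `F` is the value of Cardy's formula, i.e. Cardy's function at the cross-ratio
of the four points `cir θ₁, cir θ₂, cir θ₃, cir θ₄` of the unit circle. -/
theorem result (f : ℂ → ℂ) (hf : Smooth f) : ∃ c C ε₀ : ℝ, 0 < c ∧ 0 < C ∧ 0 < ε₀ ∧
    ∀ ε θ₁ θ₂ θ₃ θ₄ : ℝ, 0 < ε → ε ≤ ε₀ → θ₁ < θ₂ → θ₂ < θ₃ → θ₃ < θ₄ → θ₄ < θ₁ + 2 * Real.pi →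
      ε ≤ θ₂ - θ₁ → ε ≤ θ₄ - θ₃ →
      c * cardy (crossRatio (cir θ₁) (cir θ₂) (cir θ₃) (cir θ₄)) ≤
        cross ε (f '' disc) (arc f θ₁ θ₂) (arc f θ₃ θ₄) ∧
      cross ε (f '' disc) (arc f θ₁ θ₂) (arc f θ₃ θ₄) ≤
        C * cardy (crossRatio (cir θ₁) (cir θ₂) (cir θ₃) (cir θ₄)) :=
  main_of Y989.SD.m_GD Y989.SD.m_AUP Y989.SD.m_ALO Y989.SD.m_XR Y989.SD.m_CDY f hf

end Pool.Agent.Results.MP_35f495_pr.SmoothDomains
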